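import Pool.Agent.Q49.DGOne

/-!
# Moments up to order three do not determine discrete Gaussians, in any dimension `g ≥ 1`.
-/

namespace Pool.Agent.Results.MP_e16cda_ag.OrderThree

open Q49.DG

/-- Moments up to order `d` determine discrete Gaussians in dimension `g` (both `u` and `B`
vary). -/
def Determine (d g : ℕ) : Prop :=
  ∀ (u u' : Fin g → ℂ) (B B' : Matrix (Fin g) (Fin g) ℂ), InH B → InH B' →
    theta u B ≠ 0 → theta u' B' ≠ 0 →
    (∀ α : Fin g → ℕ, ∑ i, α i ≤ d → moment u B α = moment u' B' α) →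
    weight u B = weight u' B'

/-- In no dimension `g ≥ 1` do the moments up to order three determine discrete Gaussians. -/
theorem result (g : ℕ) (hg : 1 ≤ g) : ¬ Determine 3 g := by
  obtain ⟨k, rfl⟩ : ∃ k, g = k + 1 := ⟨g - 1, by omega⟩
  obtain ⟨b, hb, hb', h1, h2, h3, h4⟩ := Q49.DGOne.final k
  intro h
  exact h4 (h 0 0 _ _ (Q49.DGOne.diag_inH hb) (Q49.DGOne.diag_inH hb') h1 h2 h3)

end Pool.Agent.Results.MP_e16cda_ag.OrderThree
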